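import Mathlib

/-
Linear algebra for the elimination with many polynomials.
-/

namespace Pool.Agent.MP_c1891a_nt.G43

open Finset Polynomial Module

theorem SylN_rows {K n : Type} [Field K] [Fintype n] [DecidableEq n] (u : n → K[X])
    (hli : LinearIndependent K u) : ∃ row : n → ℕ, Function.Injective row ∧
      (Matrix.of fun a b => (u b).coeff (row a)).det ≠ 0 := by
  obtain ⟨n', row, hinj, hsp', hli''⟩ :=
    exists_linearIndependent' K fun (k : ℕ) (b : n) => (u b).coeff k
  have htop : Submodule.span K (Set.range fun (k : ℕ) (b : n) => (u b).coeff k) = ⊤ := by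
    by_contra h
    obtain ⟨f, hf, hk⟩ := Submodule.exists_le_ker_of_lt_top _ (lt_top_iff_ne_top.2 h)
    have h0 := Fintype.linearIndependent_iff.1 hli (fun i => f fun j => if i = j then 1 else 0) (by
      ext k
      have := hk (Submodule.subset_span ⟨k, rfl⟩)
      rw [LinearMap.mem_ker, LinearMap.pi_apply_eq_sum_univ] at this
      rw [finsetSum_coeff, coeff_zero]
      refine (sum_congr rfl fun i _ => ?_).trans this
      simp [mul_comm])
    refine hf (LinearMap.ext fun x => ?_)
    rw [LinearMap.pi_apply_eq_sum_univ]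
    simp [h0]
  let B : Basis n' K (n → K) := Basis.mk hli'' (by rw [hsp', htop])
  obtain ⟨e⟩ : Nonempty (n ≃ n') := ⟨(Pi.basisFun K n).indexEquiv B⟩
  refine ⟨row ∘ e, hinj.comp e.injective, ?_⟩
  have h1 : LinearIndependent K
      (Matrix.of fun a b => (u b).coeff ((row ∘ e) a)).row := hli''.comp e e.injective
  exact ((Matrix.isUnit_iff_isUnit_det _).1 (Matrix.linearIndependent_rows_iff_isUnit.1 h1)).ne_zero

theorem SylN_minor {K T : Type} [Field K] (v : T → K[X]) (N : ℕ) (hv : ∀ t, (v t).natDegree < N) :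
    ∃ (n : Type) (_ : Fintype n) (_ : DecidableEq n) (col : n → T) (row : n → ℕ),
      Fintype.card n ≤ N ∧ Function.Injective row ∧
      (Matrix.of fun a b => (v (col b)).coeff (row a)).det ≠ 0 ∧
      Submodule.span K (Set.range fun b => v (col b)) = Submodule.span K (Set.range v) := by
  classical
  obtain ⟨n, col, -, hsp, hli⟩ := exists_linearIndependent' K v
  have hmem : ∀ t, v t ∈ degreeLT K N := fun t =>
    mem_degreeLT.2 (degree_le_natDegree.trans_lt (by exact_mod_cast hv t))
  have hl : LinearIndependent K fun b => (⟨v (col b), hmem _⟩ : degreeLT K N) :=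
    LinearIndependent.of_comp (degreeLT K N).subtype hli
  have : Finite n := hl.finite
  have := Fintype.ofFinite n
  have hc : Fintype.card n ≤ N := by
    have := hl.fintype_card_le_finrank
    rwa [(degreeLTEquiv K N).finrank_eq, finrank_fin_fun] at this
  obtain ⟨row, hinj, hdet⟩ := SylN_rows _ hli
  exact ⟨n, inferInstance, inferInstance, col, row, hc, hinj, hdet, hsp⟩

theorem SylN_cramer {A K n : Type} [CommRing A] [Field K] (ι : A →+* K)
    (inj : Function.Injective ι) [Fintype n] [DecidableEq n] (u : n → A[X]) (row : n → ℕ)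
    (Γ : A[X]) (h : Γ.map ι ∈ Submodule.span K (Set.range fun b => (u b).map ι)) :
    ∃ a : n → A, C (Matrix.of fun a b => (u b).coeff (row a)).det * Γ = ∑ b, C (a b) * u b := by
  obtain ⟨l, hl⟩ := (Submodule.mem_span_range_iff_exists_fun K).1 h
  set M : Matrix n n A := Matrix.of fun a b => (u b).coeff (row a) with hM
  refine ⟨M.adjugate.mulVec fun a => Γ.coeff (row a), Polynomial.map_injective ι inj ?_⟩
  have h1 : (ι.mapMatrix M).mulVec l = fun a => ι (Γ.coeff (row a)) := by
    ext a
    rw [← coeff_map, ← hl, finsetSum_coeff]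
    simp [Matrix.mulVec, dotProduct, hM, mul_comm]
  have h2 : ∀ b, ι (M.adjugate.mulVec (fun a => Γ.coeff (row a)) b) = ι M.det * l b := by
    intro b
    have h3 := congrFun (congrArg (ι.mapMatrix M).adjugate.mulVec h1) b
    rw [Matrix.mulVec_mulVec, Matrix.adjugate_mul, ← RingHom.map_adjugate, ← RingHom.map_det,
      Matrix.smul_mulVec, Matrix.one_mulVec] at h3
    rw [show ι M.det * l b = (ι M.det • l) b from rfl, h3]
    simp [Matrix.mulVec, dotProduct]
  rw [Polynomial.map_mul, Polynomial.map_sum, ← hl, mul_sum]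
  refine sum_congr rfl fun b _ => ?_
  rw [Polynomial.map_mul, map_C, map_C, h2, C_mul, smul_eq_C_mul, mul_assoc]

theorem SylN_bez {K J : Type} [Field K] (g : J → K[X]) (n : ℕ) (hg : ∀ j, (g j).natDegree ≤ n)
    (j₀ : J) (h0 : g j₀ ≠ 0) (γ : K[X]) (hγ : γ ∈ Ideal.span (Set.range g)) (hd : γ ∣ g j₀) :
    γ ∈ Submodule.span K (Set.range fun x : Fin (n + 1) × J => X ^ (x.1 : ℕ) * g x.2) := by
  have key : ∀ (w : K[X]) (j : J), w.natDegree ≤ n → w * g j ∈
      Submodule.span K (Set.range fun x : Fin (n + 1) × J => X ^ (x.1 : ℕ) * g x.2) := by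
    intro w j hw
    rw [as_sum_range_C_mul_X_pow' w (Nat.lt_succ_of_le hw), sum_mul]
    refine Submodule.sum_mem _ fun i hi => ?_
    rw [mul_assoc, ← smul_eq_C_mul]
    exact Submodule.smul_mem _ _ (Submodule.subset_span ⟨(⟨i, mem_range.1 hi⟩, j), rfl⟩)
  obtain ⟨c, hc⟩ := Finsupp.mem_ideal_span_range_iff_exists_finsupp.1 hγ
  have hr : ∀ j, (c j % g j₀).natDegree ≤ (g j₀).natDegree := fun j =>
    natDegree_le_natDegree (degree_mod_lt _ h0).le
  have e : γ = (∑ j ∈ c.support, (c j / g j₀) * g j) * g j₀ +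
      ∑ j ∈ c.support, (c j % g j₀) * g j := by
    rw [← hc, Finsupp.sum, sum_mul, ← sum_add_distrib]
    refine sum_congr rfl fun j _ => ?_
    conv_lhs => rw [← EuclideanDomain.div_add_mod (c j) (g j₀)]
    ring
  have hw : (∑ j ∈ c.support, (c j / g j₀) * g j).natDegree ≤ n := by
    generalize (∑ j ∈ c.support, (c j / g j₀) * g j) = w at e
    by_cases hw : w = 0
    · simp [hw]
    have h1 : (w * g j₀).natDegree ≤ (g j₀).natDegree + n := by
      rw [← sub_eq_iff_eq_add] at e
      rw [← e]
      refine (natDegree_sub_le _ _).trans (max_le ?_ ?_)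
      · exact (natDegree_le_of_dvd hd h0).trans (Nat.le_add_right _ _)
      · exact natDegree_sum_le_of_forall_le _ _ fun j _ =>
          natDegree_mul_le.trans (add_le_add (hr j) (hg j))
    rw [natDegree_mul hw h0] at h1
    omega
  rw [e]
  exact Submodule.add_mem _ (key _ _ hw)
    (Submodule.sum_mem _ fun j _ => key _ _ ((hr j).trans (hg _)))

theorem SylN_gcd {A K J : Type} [CommRing A] [IsDomain A] [IsGCDMonoid A] [Field K] [Algebra A K]
    [IsFractionRing A K] (g : J → K[X]) (j₀ : J) (h0 : g j₀ ≠ 0) :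
    ∃ Γ : A[X], Γ.IsPrimitive ∧ Γ.map (algebraMap A K) ∈ Ideal.span (Set.range g) ∧
      ∀ j, Γ.map (algebraMap A K) ∣ g j := by
  let : NormalizedGCDMonoid A := Nonempty.some inferInstance
  obtain ⟨γ, hγ⟩ := (IsPrincipalIdealRing.principal (Ideal.span (Set.range g))).principal
  have hd : ∀ j, γ ∣ g j := fun j => by
    rw [← Ideal.mem_span_singleton, ← Ideal.submodule_span_eq, ← hγ]
    exact Ideal.subset_span ⟨j, rfl⟩
  have hm : γ ∈ Ideal.span (Set.range g) := by
    rw [hγ]; exact Submodule.mem_span_singleton_self γ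
  have hγ0 : γ ≠ 0 := fun h => h0 (by simpa [h] using hd j₀)
  obtain ⟨b, hb, e⟩ := IsLocalization.integerNormalization_spec (nonZeroDivisors A) γ
  set Γ := IsLocalization.integerNormalization (nonZeroDivisors A) γ
  have hb' : algebraMap A K b ≠ 0 :=
    (map_ne_zero_iff _ (IsFractionRing.injective A K)).2 (nonZeroDivisors.ne_zero hb)
  rw [Algebra.smul_def, Polynomial.algebraMap_apply] at e
  have hc : algebraMap A K Γ.content ≠ 0 := by
    refine (map_ne_zero_iff _ (IsFractionRing.injective A K)).2 fun h => ?_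
    rw [content_eq_zero_iff.1 h, Polynomial.map_zero] at e
    exact mul_ne_zero (C_ne_zero.2 hb') hγ0 e.symm
  rw [Γ.eq_C_content_mul_primPart, Polynomial.map_mul, map_C] at e
  refine ⟨Γ.primPart, Γ.isPrimitive_primPart, ?_, fun j => Dvd.dvd.trans ?_ (hd j)⟩
  · have : Γ.primPart.map (algebraMap A K) =
        C ((algebraMap A K Γ.content)⁻¹) * (C (algebraMap A K b) * γ) := by
      rw [← e, ← mul_assoc, ← C_mul, inv_mul_cancel₀ hc, C_1, one_mul]
    rw [this]
    exact Ideal.mul_mem_left _ _ (Ideal.mul_mem_left _ _ hm)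
  · refine ⟨C ((algebraMap A K b)⁻¹) * C (algebraMap A K Γ.content), ?_⟩
    rw [mul_comm, mul_assoc, e, ← mul_assoc, ← C_mul, inv_mul_cancel₀ hb', C_1, one_mul]

/-- a minor that vanishes at a common zero, or a generic point of a curve through it. -/
theorem SylN_alt {A K F E J : Type} [CommRing A] [IsDomain A] [UniqueFactorizationMonoid A]
    [Field K] [Algebra A K] [IsFractionRing A K] [Field F] [Algebra K F] [IsAlgClosed F]
    [CommRing E] [IsDomain E] (g : J → A[X]) (n : ℕ) (hg : ∀ j, (g j).natDegree ≤ n) (j₀ : J)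
    (h0 : g j₀ ≠ 0) (ev : A[X] →+* E) (hz : ∀ j, ev (g j) = 0) :
    (∃ (N : Type) (_ : Fintype N) (_ : DecidableEq N) (sh : N → ℕ) (col : N → J) (row : N → ℕ),
      Fintype.card N ≤ 2 * n + 1 ∧ Function.Injective row ∧
      (Matrix.of fun a b => (X ^ sh b * g (col b)).coeff (row a)).det ≠ 0 ∧
      ev (C (Matrix.of fun a b => (X ^ sh b * g (col b)).coeff (row a)).det) = 0) ∨
    ∃ P : F, (∀ j, ((g j).map ((algebraMap K F).comp (algebraMap A K))).eval P = 0) ∧
      ∀ Φ : A[X], (Φ.map ((algebraMap K F).comp (algebraMap A K))).eval P = 0 → ev Φ = 0 := by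
  have inj := IsFractionRing.injective A K
  have h0' : (g j₀).map (algebraMap A K) ≠ 0 := (Polynomial.map_ne_zero_iff inj).2 h0
  obtain ⟨Γ, hp, hm, hd⟩ := SylN_gcd (A := A) (fun j => (g j).map (algebraMap A K)) j₀ h0'
  by_cases hΓ : ev Γ = 0
  · right
    obtain ⟨π, hπ, hπ0⟩ : ∃ π ∈ UniqueFactorizationMonoid.factors Γ, ev π = 0 := by
      obtain ⟨u, hu⟩ := (UniqueFactorizationMonoid.factors_prod hp.ne_zero).symm
      have := congrArg ev hu
      rw [map_mul, hΓ, zero_mul, map_multiset_prod, eq_comm, Multiset.prod_eq_zero_iff,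
        Multiset.mem_map] at this
      exact this
    have hdv := UniqueFactorizationMonoid.dvd_of_mem_factors hπ
    have hpp := isPrimitive_of_dvd hp hdv
    have hi := (hpp.irreducible_iff_irreducible_map_fraction_map (K := K)).1
      (UniqueFactorizationMonoid.irreducible_of_factor π hπ)
    obtain ⟨P, hP⟩ := IsAlgClosed.exists_aeval_eq_zero F _ (degree_pos_of_irreducible hi).ne'
    have ae : ∀ Φ : A[X], (Φ.map ((algebraMap K F).comp (algebraMap A K))).eval P =
        aeval P (Φ.map (algebraMap A K)) := fun Φ => by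
      rw [← Polynomial.map_map, eval_map_algebraMap]
    refine ⟨P, fun j => ?_, fun Φ hΦ => ?_⟩
    · rw [ae]
      exact aeval_eq_zero_of_dvd_aeval_eq_zero ((Polynomial.map_dvd _ hdv).trans (hd j)) hP
    · rw [ae] at hΦ
      have h1 : π.map (algebraMap A K) ∣ Φ.map (algebraMap A K) := by
        refine Dvd.dvd.trans ?_ (minpoly.dvd K P hΦ)
        exact ((minpoly.irreducible (IsAlgebraic.isIntegral ⟨_, hi.ne_zero, hP⟩)).associated_of_dvd
          hi (minpoly.dvd K P hP)).symm.dvd
      obtain ⟨r, rfl⟩ := hpp.dvd_of_fraction_map_dvd_fraction_map h1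
      rw [map_mul, hπ0, zero_mul]
  · left
    have hs := SylN_bez (fun j => (g j).map (algebraMap A K)) n
      (fun j => natDegree_map_le.trans (hg j)) j₀ h0' _ hm (hd j₀)
    obtain ⟨N, _, _, col, row, hc, hinj, hdet, hsp⟩ := SylN_minor
      (fun x : Fin (n + 1) × J => X ^ (x.1 : ℕ) * (g x.2).map (algebraMap A K)) (2 * n + 1)
      fun x => by
        have h1 := x.1.2
        have h2 := (natDegree_map_le (f := algebraMap A K)).trans (hg x.2)
        have h3 := natDegree_mul_le (p := (X : K[X]) ^ (x.1 : ℕ)) (q := (g x.2).map (algebraMap A K))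
        rw [natDegree_X_pow] at h3
        omega
    rw [← hsp] at hs
    obtain ⟨a, ha⟩ := SylN_cramer (algebraMap A K) inj
      (fun b => X ^ ((col b).1 : ℕ) * g (col b).2) row Γ (by
        simpa only [Polynomial.map_mul, Polynomial.map_pow, map_X] using hs)
    refine ⟨N, inferInstance, inferInstance, fun b => (col b).1, fun b => (col b).2, row, hc, hinj,
      fun h => hdet ?_, ?_⟩
    · have := congrArg (algebraMap A K) h
      rw [RingHom.map_det, map_zero] at this
      rw [← this]
      congr 1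
      ext a b
      simp only [Matrix.of_apply, RingHom.mapMatrix_apply, Matrix.map_apply, ← coeff_map,
        Polynomial.map_mul, Polynomial.map_pow, map_X]
    · have := congrArg ev ha
      rw [map_mul, map_sum, sum_eq_zero fun b _ => by simp only [map_mul, hz, mul_zero]] at this
      exact (mul_eq_zero.1 this).resolve_right hΓ

end Pool.Agent.MP_c1891a_nt.G43
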