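import Pool.Agent.MP_c1891a_nt.G43.Spec
import Pool.Agent.MP_c1891a_nt.H83.Syl
import Pool.Agent.MP_c1891a_nt.G75.SylA

/-
A common zero is far from a torsion translate of a subgroup, or lies on a common curve.
-/

namespace Pool.Agent.MP_c1891a_nt.G43

open Finset Polynomial H83

section

variable {O S : Type} [CommRing O] {φ : S → O →+* ℂ}

theorem SylN_mulX {G : O[X][X]} {l c ρ H : ℝ} (h : Nice φ G l c ρ H) (t : ℕ) :
    Nice φ (X ^ t * G) l (c - l * t) ρ H := by
  classical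
  refine ⟨fun j => ?_, fun σ u hu s => ?_⟩
  · rw [coeff_X_pow_mul']
    split_ifs with h1
    · have := h.win (j - t)
      rwa [Nat.cast_sub h1, show l * ((j : ℝ) - t) + c = l * j + (c - l * t) by ring] at this
    · intro e he
      simp at he
  · refine le_trans (le_of_eq ?_) (h.nrm σ u hu ((s.filter fun i => t ≤ i).image fun i => i - t))
    rw [sum_image, sum_filter]
    · refine sum_congr rfl fun i _ => ?_
      rw [coeff_X_pow_mul']
      split_ifs <;> simp
    · intro a ha b hb hab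
      simp only [coe_filter, Set.mem_ofPred_eq] at ha hb hab
      omega

theorem SylN_core [IsDomain O] [Fintype S] (L : LS φ) {g : ℕ} (hg : Fintype.card S ≤ g) (σ₀ : S)
    {n : Type} [Fintype n] [DecidableEq n] {V : n → O[X][X]} {c : n → ℝ} {l ρ H : ℝ}
    (hN : ∀ b, Nice φ (V b) l (c b) ρ H) {row : n → ℕ} (hinj : Function.Injective row)
    {D W m : ℕ} (hD : Fintype.card n ≤ D) (hρ : 0 ≤ ρ) (hW : 2 * D * ρ ≤ W) (hH : 1 ≤ H)
    (hR0 : (Matrix.of fun a b => (V b).coeff (row a)).det ≠ 0)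
    {θ : O} (hθ : ∀ σ, ‖φ σ θ‖ ≤ 1) {q : ℂ} (hq : q ≠ 0)
    (hRq : ((Matrix.of fun a b => (V b).coeff (row a)).det.map (φ σ₀)).eval q = 0)
    (hne : q ^ m ≠ φ σ₀ θ) : 1 ≤ ‖q ^ m - φ σ₀ θ‖ * (2 ^ W * (H ^ D) ^ m) ^ g := by
  have ev : ∀ σ (u : ℂ) (f : O[X]), eval₂RingHom (φ σ) u f = (f.map (φ σ)).eval u :=
    fun σ u f => by rw [eval_map]; rfl
  have hwin : ∃ c', Win (Matrix.of fun a b => (V b).coeff (row a)).det c' (D * ρ) := by
    have := win_det (Matrix.of fun a b => (V b).coeff (row a)) (fun i => l * row i)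
      (fun j => - c j) (r := ρ) fun i j => by
        rw [sub_neg_eq_add]
        exact (hN j).win _
    exact ⟨_, fun e he => (this e he).trans
      (mul_le_mul_of_nonneg_right (by exact_mod_cast hD) hρ)⟩
  have hM : ∀ σ, ((Matrix.of fun a b => (V b).coeff (row a)).det.map (φ σ)).mahlerMeasure ≤
      H ^ D := fun σ => by
    refine mahler_le_of_circle _ (by positivity) fun u hu => ?_
    rw [← ev, RingHom.map_det]
    refine (norm_det_le _ (H := H) fun j => ?_).trans (pow_le_pow_right₀ hH hD)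
    have := (hN j).nrm σ u hu (univ.map ⟨row, hinj⟩)
    rw [sum_map] at this
    exact this
  generalize (Matrix.of fun a b => (V b).coeff (row a)).det = R at hR0 hRq hwin hM
  obtain ⟨c, hc⟩ := hwin
  obtain ⟨R₀, e, hnd⟩ := exists_eq_pow_rootMultiplicity_mul_and_not_dvd R hR0 0
  generalize R.rootMultiplicity 0 = κ at e
  rw [map_zero, sub_zero] at e hnd
  have h00 : R₀ ≠ 0 := fun h => hR0 (by rw [e, h, mul_zero])
  have hd : R₀.natDegree ≤ W := by
    have a1 := abs_le.1 (hc (0 + κ) (by rw [e, coeff_X_pow_mul]; rwa [X_dvd_iff] at hnd))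
    have a2 := abs_le.1 (hc (R₀.natDegree + κ) (by
      rw [e, coeff_X_pow_mul]; exact leadingCoeff_ne_zero.2 h00))
    push_cast at a1 a2
    have : (R₀.natDegree : ℝ) ≤ W := by linarith [a1.1, a2.2]
    exact_mod_cast this
  have e' : ∀ σ, R.map (φ σ) = X ^ κ * R₀.map (φ σ) := fun σ => by rw [e]; simp
  refine gap L hg σ₀ h00 hd (one_le_pow₀ hH) (fun σ => ?_) hθ ?_ hne
  · have := hM σ
    have h1 : ∀ k : ℕ, (X ^ k : ℂ[X]).mahlerMeasure = 1 := fun k => by
      induction k with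
      | zero => simp
      | succ k ih =>
        have := mahlerMeasure_X_sub_C 0
        rw [map_zero, sub_zero] at this
        rw [pow_succ, mahlerMeasure_mul, ih, this]
        simp
    rwa [e', mahlerMeasure_mul, h1, one_mul] at this
  · rw [e', eval_mul, eval_pow, eval_X] at hRq
    exact (mul_eq_zero.1 hRq).resolve_left (pow_ne_zero _ hq)

theorem SylN_nice (σ₀ : S) {Y : ℤ → O} {ζ : ℂ}
    (hY : ∀ e, φ σ₀ (Y e) = ζ ^ e) (hY' : ∀ σ e, ‖φ σ (Y e)‖ = 1) {ι : Type} (I : Finset ι)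
    (s e α β : ι → ℤ) {d b : ℕ} {l ρ H : ℝ} (h : ∀ i ∈ I, |α i| ≤ d ∧ |β i - l * α i| ≤ ρ)
    (hH : ∑ i ∈ I, |(s i : ℝ)| ≤ H) (hb : ∀ i ∈ I, 0 ≤ β i + b) :
    ∃ G : O[X][X], Nice φ G l (b - l * d) ρ H ∧ G.natDegree ≤ 2 * d ∧
      ∀ (F : Type) [Field F] [Algebra ℂ F] (f : ℂ[X] →+* F) (p q : F), p ≠ 0 → q ≠ 0 →
        (∀ z, f (C z) = algebraMap ℂ F z) → f X = q →
        ((G.map (mapRingHom (φ σ₀))).map f).eval p = p ^ d * q ^ b *
          ∑ i ∈ I, algebraMap ℂ F ((s i : ℂ) * ζ ^ e i) * p ^ α i * q ^ β i := by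
  classical
  have ha : ∀ i ∈ I, 0 ≤ α i + d := fun i hi => by have := abs_le.1 (h i hi).1; omega
  set G : O[X][X] := ∑ i ∈ I, monomial (α i + d).toNat (monomial (β i + b).toNat (s i * Y (e i)))
    with hF
  have hc : ∀ j, G.coeff j = ∑ i ∈ I with (α i + d).toNat = j,
      monomial (β i + b).toNat (s i * Y (e i)) := fun j => by
    rw [hF, finsetSum_coeff, sum_filter]
    exact sum_congr rfl fun i _ => coeff_monomial
  refine ⟨G, ⟨fun j => ?_, fun σ u hu t => ?_⟩, ?_, fun F _ _ f p q hp hq hC hX => ?_⟩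
  · rw [hc]
    refine Win.sum _ fun i hi' x hx => ?_
    obtain ⟨hi, rfl⟩ := mem_filter.1 hi'
    rw [coeff_monomial] at hx
    have h1 : (β i + b).toNat = x := by
      by_contra h1
      exact hx (if_neg h1)
    have h2 : (x : ℝ) = β i + b := by
      rw [← h1]; exact_mod_cast Int.toNat_of_nonneg (hb i hi)
    have h3 : (((α i + d).toNat : ℕ) : ℝ) = α i + d := by
      exact_mod_cast Int.toNat_of_nonneg (ha i hi)
    rw [h2, h3, show (β i : ℝ) + b - (l * (α i + d) + (b - l * d)) = β i - l * α i by ring]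
    exact (h i hi).2
  · refine le_trans ?_ hH
    calc _ ≤ ∑ j ∈ t, ∑ i ∈ I with (α i + d).toNat = j, |(s i : ℝ)| := by
          refine sum_le_sum fun j _ => ?_
          rw [hc, map_sum]
          refine norm_sum_le_of_le _ fun i _ => le_of_eq ?_
          rw [coe_eval₂RingHom, eval₂_monomial, map_mul, norm_mul, norm_mul, hY', norm_pow, hu,
            map_intCast, Complex.norm_intCast]
          simp
      _ = ∑ i ∈ I with (α i + d).toNat ∈ t, |(s i : ℝ)| :=
          sum_fiberwise_eq_sum_filter _ _ _ _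
      _ ≤ _ := sum_le_sum_of_subset_of_nonneg (filter_subset _ _) fun _ _ _ => abs_nonneg _
  · refine natDegree_sum_le_of_forall_le _ _ fun i hi => (natDegree_monomial_le _).trans ?_
    have := abs_le.1 (h i hi).1
    omega
  · rw [hF, Polynomial.map_sum, Polynomial.map_sum, eval_finsetSum, mul_sum]
    refine sum_congr rfl fun i hi => ?_
    rw [map_monomial, map_monomial, eval_monomial, coe_mapRingHom, map_monomial, map_mul (φ σ₀), hY,
      map_intCast, ← C_mul_X_pow_eq_monomial, map_mul f, map_pow f, hC, hX,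
      ← zpow_natCast, ← zpow_natCast, Int.toNat_of_nonneg (ha i hi), Int.toNat_of_nonneg (hb i hi),
      zpow_add₀ hp, zpow_add₀ hq, zpow_natCast, zpow_natCast]
    ring

end

theorem SylN_tt : tt ≠ 0 :=
  (map_ne_zero_iff _ (algebraMap (RatFunc ℂ) FF).injective).2 RatFunc.X_ne_zero

theorem SylN_comp : (algebraMap (RatFunc ℂ) FF).comp (algebraMap ℂ[X] (RatFunc ℂ)) =
    (aeval tt : ℂ[X] →ₐ[ℂ] FF).toRingHom := by
  refine Polynomial.ringHom_ext (fun a => ?_) ?_
  · simp only [RingHom.comp_apply, AlgHom.toRingHom_eq_coe, RingHom.coe_coe, aeval_C,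
      RatFunc.algebraMap_C]
    exact (IsScalarTower.algebraMap_apply ℂ (RatFunc ℂ) FF a).symm
  · simp [tt]

theorem sSylN : SSylN := by
  intro ι J I c e α β κ ζ p q g d m W H l ρ a hg hζ hd hI HI hH hρ hW hp hq hnz hz hne
  classical
  obtain ⟨O, S, _, _, _, φ, σ₀, Y, L, hc, hY, hY'⟩ := exists_LS hg hζ
  obtain ⟨b, hb⟩ : ∃ b : ℕ, ∀ i ∈ I, 0 ≤ β i + b :=
    ⟨I.sup fun i => (β i).natAbs, fun i hi => by
      have : (β i).natAbs ≤ I.sup fun i => (β i).natAbs := le_sup (f := fun i => (β i).natAbs) hi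
      omega⟩
  choose G hN hD hev using fun j : J => SylN_nice σ₀ hY hY' (I.filter fun i => κ i = j) c e α β
    (fun i hi => hI i (mem_filter.1 hi).1)
    ((sum_le_sum_of_subset_of_nonneg (filter_subset _ _) fun _ _ _ => abs_nonneg _).trans HI)
    (fun i hi => hb i (mem_filter.1 hi).1)
  have hC : ∀ (j : J) (p q : ℂ), p ≠ 0 → q ≠ 0 →
      ((G j).map (mapRingHom (φ σ₀))).evalEval q p = p ^ d * q ^ b *
        ∑ i ∈ I with κ i = j, (c i : ℂ) * ζ ^ e i * p ^ α i * q ^ β i := fun j p q hp hq => by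
    rw [← map_evalRingHom_eval]
    exact hev j ℂ (evalRingHom q) p q hp hq (by simp) (by simp)
  obtain ⟨j₀, p₀, q₀, hp₀, hq₀, h₀⟩ := hnz
  have inj : Function.Injective (mapRingHom (φ σ₀)) := Polynomial.map_injective _ (L.inj σ₀)
  rcases SylN_alt (K := RatFunc ℂ) (F := FF) (fun j => (G j).map (mapRingHom (φ σ₀))) (2 * d)
    (fun j => natDegree_map_le.trans (hD j)) j₀ (fun h => by
      have := hC j₀ p₀ q₀ hp₀ hq₀
      rw [h, evalEval_zero] at this
      exact mul_ne_zero (mul_ne_zero (pow_ne_zero _ hp₀) (pow_ne_zero _ hq₀)) h₀ this.symm)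
    (evalEvalRingHom q p) (fun j => by
      rw [coe_evalEvalRingHom, hC j p q hp hq, hz j, mul_zero]) with
    ⟨N, _, _, sh, col, row, hcard, hinj, hdet, hR⟩ | ⟨P, h1, h2⟩
  · left
    have e1 : (Matrix.of fun a b => (X ^ sh b * (G (col b)).map (mapRingHom (φ σ₀))).coeff
        (row a)).det = (Matrix.of fun a b => (X ^ sh b * G (col b)).coeff (row a)).det.map
          (φ σ₀) := by
      refine Eq.trans ?_ (RingHom.map_det (mapRingHom (φ σ₀)) _).symm
      congr 1
      ext a b : 2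
      simp only [Matrix.of_apply, RingHom.mapMatrix_apply, Matrix.map_apply, ← coeff_map,
        Polynomial.map_mul, Polynomial.map_pow, map_X]
    rw [e1] at hdet hR
    rw [← hY] at hne ⊢
    rw [pow_mul H]
    refine SylN_core L hc σ₀ (fun b => SylN_mulX (hN (col b)) (sh b)) hinj (by omega) hρ
      (by push_cast; linarith) hH (fun h => hdet (by rw [h, Polynomial.map_zero]))
      (fun σ => (hY' σ a).le) hq ?_ hne
    rwa [coe_evalEvalRingHom, evalEval_C] at hR
  · right
    rw [SylN_comp] at h1 h2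
    have hP : P ≠ 0 := fun h => hp (by simpa using h2 X (by simp [h]))
    refine ⟨P, hP, fun j => ?_, h2⟩
    have := hev j FF (aeval tt : ℂ[X] →ₐ[ℂ] FF).toRingHom P tt hP SylN_tt (by simp) (by simp)
    rw [h1 j] at this
    exact (mul_eq_zero.1 this.symm).resolve_left
      (mul_ne_zero (pow_ne_zero _ hP) (pow_ne_zero _ SylN_tt))

end Pool.Agent.MP_c1891a_nt.G43
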